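import Pool.Agent.Y476.NA.Stm

/-! Null-additive sets are caught by small sets. -/

set_option autoImplicit false

namespace Pool.Agent.Y476.NA

open MeasureTheory Filter Set
open scoped Pointwise

/-- A set whose finite subsets with pairwise incongruent integer parts are small has a small set of
representatives. -/
theorem reps (b n : ℕ) (Y : Set ℝ) (f : ℝ → ℤ)
    (h : ∀ F : Finset ℝ, ↑F ⊆ Y → (∀ x ∈ F, ∀ y ∈ F, x ≠ y → ¬ (b : ℤ) ∣ f x - f y) →
      F.card < n) :
    ∃ F : Finset ℝ, ↑F ⊆ Y ∧ F.card < n ∧ ∀ x ∈ Y, ∃ y ∈ F, (b : ℤ) ∣ f x - f y := by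
  classical
  -- choose a set with the largest number of elements
  let P : ℕ → Prop := fun m => ∃ F : Finset ℝ, ↑F ⊆ Y ∧
    (∀ x ∈ F, ∀ y ∈ F, x ≠ y → ¬ (b : ℤ) ∣ f x - f y) ∧ F.card = m
  have hP0 : P 0 := ⟨∅, by simp, by simp, by simp⟩
  have hPb : ∀ m, P m → m ≤ n := by
    rintro m ⟨F, h1, h2, h3⟩
    exact (h3 ▸ h F h1 h2).le
  have hne : ∃ m, P m ∧ ∀ m', P m' → m' ≤ m := by
    refine ⟨Nat.findGreatest P n, Nat.findGreatest_spec (Nat.zero_le n) hP0, ?_⟩
    intro m' hm'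
    exact Nat.le_findGreatest (hPb m' hm') hm'
  obtain ⟨m, ⟨F, hF, hF2, hF3⟩, hmax⟩ := hne
  refine ⟨F, hF, h F hF hF2, ?_⟩
  intro x hx
  by_contra hcon
  push Not at hcon
  have hxF : x ∉ F := fun hxF => hcon x hxF (by simp)
  have : P (m + 1) := by
    refine ⟨insert x F, ?_, ?_, ?_⟩
    · intro y hy
      rw [Finset.coe_insert, Set.mem_insert_iff] at hy
      rcases hy with rfl | hy
      · exact hx
      · exact hF hy
    · intro y hy z hz hyz
      rw [Finset.mem_insert] at hy hz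
      rcases hy with rfl | hy
      · rcases hz with rfl | hz
        · exact absurd rfl hyz
        · exact hcon z hz
      · rcases hz with rfl | hz
        · intro hd
          refine hcon y hy ?_
          have : f z - f y = -(f y - f z) := by ring
          rw [this]
          exact (dvd_neg).2 hd
        · exact hF2 y hy z hz hyz
    · rw [Finset.card_insert_of_notMem hxF, hF3]
  have := hmax _ this
  omega

theorem n1 (hCL : S_CL) (hOP : S_OP) (hHN : S_HN) (hBC : S_BC) (hCV : S_CV) : S_N1 := by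
  classical
  -- parameters
  let m : ℕ → ℕ := fun k => (k + 1) ^ 2
  let q : ℕ → ℕ := fun k => k + 1
  have hm : ∀ k, 0 < m k := fun k => by positivity
  have hq : ∀ k, 0 < q k := fun k => by positivity
  choose L hL using fun k => hCL (m k) (q k) (hm k) (hq k)
  refine ⟨fun k => (k + 1) * (2 * L k), ?_⟩
  intro G
  have hL0 : ∀ k, 0 < L k := fun k => (hL k).1
  choose b hb0 hb1 J hJ using fun k => (hL k).2
  -- the sequence D
  let D : ℕ → ℕ := fun k => Nat.rec 1 (fun k d => d * b k (G k d)) k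
  have hD0 : D 0 = 1 := rfl
  have hDs : ∀ k, D (k + 1) = D k * b k (G k (D k)) := fun k => rfl
  have hDp : ∀ k, 0 < D k := by
    intro k
    induction k with
    | zero => rw [hD0]; norm_num
    | succ k ih => rw [hDs]; exact Nat.mul_pos ih (hb1 k _)
  refine ⟨D, hDp, fun k => ⟨_, hDs k⟩, ?_, ?_⟩
  · intro k
    rw [hDs]
    calc G k (D k) ≤ b k (G k (D k)) := hb0 k _
      _ ≤ D k * b k (G k (D k)) := Nat.le_mul_of_pos_left _ (hDp k)
  intro X hX
  set β : ℕ → ℕ := fun k => b k (G k (D k)) with hβ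
  set Q : ℕ → Set ℤ := fun k => J k (G k (D k)) with hQ
  have hβ0 : ∀ k, 0 < β k := fun k => hb1 k _
  have hQ1 : ∀ k, Per (β k) (Q k) := fun k => (hJ k _).1
  have hQ2 : ∀ k, Sml (β k) (m k) (Q k) := fun k => (hJ k _).2.1
  have hQ3 : ∀ k, Cov (β k) (q k) (L k) (Q k) := fun k => (hJ k _).2.2
  have hsum : Summable (fun k => (1 : ℝ) / (m k : ℝ)) := by
    have h1 : Summable (fun k : ℕ => (1 : ℝ) / ((k : ℝ)) ^ 2) :=
      Real.summable_one_div_nat_pow.2 (by norm_num)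
    have h2 := (summable_nat_add_iff 1).2 h1
    refine h2.congr ?_
    intro k
    simp [m]
  have hnull := hHN D β m Q hDp hβ0 hm hDs hQ1 hQ2 hsum
  have hXn := hX _ hnull
  obtain ⟨P, hP, hPX⟩ := hBC (fun k => Hs (D (k + 1)) (Q k)) (fun k => hOP _ _ (hDp (k + 1))) X hXn
  -- pieces
  let Y : ℕ × ℕ → Set ℝ := fun a => {x | x ∈ X ∧ ∀ k ≥ a.2, ∀ z ∈ P a.1, z - x ∉ Hs (D (k + 1)) (Q k)}
  -- for each piece, eventually few residues
  have hpiece : ∀ a : ℕ × ℕ, ∃ k0 : ℕ, ∀ k ≥ k0, ∃ F : Finset ℝ, F.card ≤ 2 * L k ∧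
      ∀ x ∈ Y a, ∃ s ∈ F, ∃ i : ℤ, |x - s - (i : ℝ) / (Nat.cast (D k) : ℝ)| ≤ 1 / (Nat.cast (D (k + 1)) : ℝ) := by
    intro a
    have hpos := (hP a.1).2
    -- choose k0 with 3/(k+1) < volume (P a.1)
    obtain ⟨k1, hk1⟩ : ∃ k1 : ℕ, ∀ k ≥ k1, ENNReal.ofReal (3 / (q k : ℝ)) < volume (P a.1) := by
      have ht : Tendsto (fun k : ℕ => ENNReal.ofReal (3 / (q k : ℝ))) atTop (nhds 0) := by
        rw [← ENNReal.ofReal_zero]
        refine (ENNReal.continuous_ofReal.tendsto 0).comp ?_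
        have : Tendsto (fun k : ℕ => (3 : ℝ) / ((k : ℝ) + 1)) atTop (nhds 0) := by
          have h := tendsto_one_div_add_atTop_nhds_zero_nat (𝕜 := ℝ)
          have h' := h.const_mul 3
          simp only [mul_zero] at h'
          refine h'.congr ?_
          intro k
          ring
        refine this.congr ?_
        intro k
        simp [q]
      have := ht.eventually (gt_mem_nhds hpos)
      exact eventually_atTop.1 this
    refine ⟨max a.2 k1, ?_⟩
    intro k hk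
    have hk2 : a.2 ≤ k := le_trans (le_max_left _ _) hk
    have hk3 : k1 ≤ k := le_trans (le_max_right _ _) hk
    obtain ⟨F, hF1, hF2, hF3⟩ := reps (β k) (2 * L k) (Y a)
      (fun x => ⌊x * (Nat.cast (D (k + 1)) : ℝ)⌋) (by
        intro F hFY hFi
        by_contra hcon
        push Not at hcon
        have h1 := hCV (D k) (β k) (q k) (L k) (Q k) (hDp k) (hβ0 k) (hq k) (hQ1 k) (hQ3 k) F
          (by rw [← hDs k]; exact hFi) hcon
        rw [← hDs k] at h1
        have h2 : volume (P a.1) ≤ ENNReal.ofReal (3 / (q k : ℝ)) := by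
          refine le_trans (measure_mono ?_) h1
          intro z hz
          refine ⟨(hP a.1).1 hz, ?_⟩
          intro x hx
          exact (hFY hx).2 k hk2 z hz
        exact absurd (hk1 k hk3) (not_lt.2 h2))
    refine ⟨F, hF2.le, ?_⟩
    intro x hx
    obtain ⟨y, hy, i, hi⟩ := hF3 x hx
    refine ⟨y, hy, i, ?_⟩
    have hD' : (0 : ℝ) < (Nat.cast (D (k + 1)) : ℝ) := by exact_mod_cast hDp (k + 1)
    have hDk : (0 : ℝ) < (Nat.cast (D k) : ℝ) := by exact_mod_cast hDp k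
    have hDD : (Nat.cast (D (k + 1)) : ℝ) = (Nat.cast (D k) : ℝ) * (β k : ℝ) := by rw [hDs k]; push_cast; rfl
    have hβr : (0 : ℝ) < (β k : ℝ) := by exact_mod_cast hβ0 k
    have e1 : |x * (Nat.cast (D (k + 1)) : ℝ) - y * (Nat.cast (D (k + 1)) : ℝ) - (β k : ℝ) * (i : ℝ)| ≤ 1 := by
      have h1 := Int.floor_le (x * (Nat.cast (D (k + 1)) : ℝ))
      have h2 := Int.lt_floor_add_one (x * (Nat.cast (D (k + 1)) : ℝ))
      have h3 := Int.floor_le (y * (Nat.cast (D (k + 1)) : ℝ))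
      have h4 := Int.lt_floor_add_one (y * (Nat.cast (D (k + 1)) : ℝ))
      have h5 : ((⌊x * (Nat.cast (D (k + 1)) : ℝ)⌋ : ℤ) : ℝ) - ((⌊y * (Nat.cast (D (k + 1)) : ℝ)⌋ : ℤ) : ℝ) =
          (β k : ℝ) * (i : ℝ) := by exact_mod_cast hi
      rw [abs_le]
      constructor <;> linarith
    have e2 : x - y - (i : ℝ) / (Nat.cast (D k) : ℝ) =
        (x * (Nat.cast (D (k + 1)) : ℝ) - y * (Nat.cast (D (k + 1)) : ℝ) - (β k : ℝ) * (i : ℝ)) / (Nat.cast (D (k + 1)) : ℝ) := by
      rw [hDD]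
      field_simp
    rw [e2, abs_div, abs_of_pos hD']
    exact div_le_div_of_nonneg_right e1 hD'.le
  choose k0 hk0 using hpiece
  -- choose the finite sets
  have hch : ∀ (a : ℕ × ℕ) (k : ℕ), ∃ F : Finset ℝ, F.card ≤ 2 * L k ∧ (k0 a ≤ k →
      ∀ x ∈ Y a, ∃ s ∈ F, ∃ i : ℤ, |x - s - (i : ℝ) / (Nat.cast (D k) : ℝ)| ≤ 1 / (Nat.cast (D (k + 1)) : ℝ)) := by
    intro a k
    by_cases h : k0 a ≤ k
    · obtain ⟨F, h1, h2⟩ := hk0 a k h
      exact ⟨F, h1, fun _ => h2⟩
    · exact ⟨∅, by simp, fun h' => absurd h' h⟩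
  choose F hF1 hF2 using hch
  let e : ℕ → ℕ × ℕ := fun n => Nat.unpair n
  refine ⟨fun k => (Finset.range (k + 1)).biUnion (fun n => F (e n) k), ?_, ?_⟩
  · intro k
    refine le_trans Finset.card_biUnion_le ?_
    refine le_trans (Finset.sum_le_sum (fun n _ => hF1 (e n) k)) ?_
    rw [Finset.sum_const, Finset.card_range, smul_eq_mul]
  · intro x hx
    obtain ⟨n, mm, hnm⟩ := hPX x hx
    have hxY : x ∈ Y (n, mm) := ⟨hx, hnm⟩
    filter_upwards [eventually_ge_atTop (max (k0 (n, mm)) (Nat.pair n mm))] with k hk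
    have hk1 : k0 (n, mm) ≤ k := le_trans (le_max_left _ _) hk
    have hk2 : Nat.pair n mm ≤ k := le_trans (le_max_right _ _) hk
    obtain ⟨s, hs, i, hi⟩ := hF2 (n, mm) k hk1 x hxY
    refine ⟨s, ?_, i, hi⟩
    rw [Finset.mem_biUnion]
    refine ⟨Nat.pair n mm, Finset.mem_range.2 (by omega), ?_⟩
    simp only [e, Nat.unpair_pair]
    exact hs

end Pool.Agent.Y476.NA
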