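import Pool.Agent.Y476.NA.Stm
import Pool.Agent.Y476.NA.N1
import Pool.Agent.Y151.NA.BC
import Pool.Agent.Y151.NA.CB
import Pool.Agent.Y151.NA.CV
import Pool.Agent.Y337.NA.N2
import Pool.Agent.Y344.NA.Cl
import Pool.Agent.Y641.NA.HN

/-!
Products of null-additive sets of reals are null-additive in the plane: assembly of the steps.
-/

set_option autoImplicit false

namespace Pool.Agent.Y476.NA

open MeasureTheory Filter Set
open scoped Pointwise

/-- The product of two null-additive sets is null-additive in the plane. -/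
theorem prod_nullAdd : ∀ X Y : Set ℝ, NullAdd X → NullAdd Y → NullAdd2 (X ×ˢ Y) :=
  fin (n1 Pool.Agent.Y344.NA.t Pool.Agent.Y641.NA.op Pool.Agent.Y641.NA.t
    Pool.Agent.Y151.NA.BC.t Pool.Agent.Y151.NA.CV.t)
    Pool.Agent.Y151.NA.CB.t Pool.Agent.Y337.NA.t

end Pool.Agent.Y476.NA
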