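import Mathlib

/-!
Products of null-additive sets of reals: definitions and statements of the steps.
-/

set_option autoImplicit false

namespace Pool.Agent.Y476.NA

open MeasureTheory Filter Set
open scoped Pointwise

/-- `X` is null-additive in `ℝ`. -/
def NullAdd (X : Set ℝ) : Prop := ∀ N : Set ℝ, volume N = 0 → volume (X + N) = 0

/-- `X` is null-additive in the plane. -/
def NullAdd2 (X : Set (ℝ × ℝ)) : Prop :=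
  ∀ N : Set (ℝ × ℝ), volume N = 0 → volume (X + N) = 0

/-- All reals `z` such that `z D` is not an integer and its integer part is in `J`. -/
def Hs (D : ℕ) (J : Set ℤ) : Set ℝ := {z : ℝ | (∀ n : ℤ, z * D ≠ n) ∧ ⌊z * D⌋ ∈ J}

/-- `J` is periodic with period `b`. -/
def Per (b : ℕ) (J : Set ℤ) : Prop := ∀ I : ℤ, I + b ∈ J ↔ I ∈ J

/-- At most `b / m` residues modulo `b` lie in `J`. -/
def Sml (b m : ℕ) (J : Set ℤ) : Prop :=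
  m * {I : ℤ | 0 ≤ I ∧ I < b ∧ I ∈ J}.ncard ≤ b

/-- Any `L` translates of `J` by integers incongruent modulo `b` cover all but `b / q` residues. -/
def Cov (b q L : ℕ) (J : Set ℤ) : Prop :=
  ∀ T : Finset ℤ, (∀ s ∈ T, ∀ t ∈ T, s ≠ t → ¬ (b : ℤ) ∣ s - t) → L ≤ T.card →
    q * {I : ℤ | 0 ≤ I ∧ I < b ∧ ∀ t ∈ T, I - t ∉ J}.ncard ≤ b

/-- `X` is caught by the finite sets `S k` modulo `1 / D k` with precision `1 / D (k + 1)`. -/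
def Slalom (D : ℕ → ℕ) (S : ℕ → Finset ℝ) (X : Set ℝ) : Prop :=
  ∀ x ∈ X, ∀ᶠ k in atTop, ∃ s ∈ S k, ∃ i : ℤ,
    |x - s - (i : ℝ) / (D k : ℝ)| ≤ 1 / (D (k + 1) : ℝ)

/-- `CL`: sets with well distributed translates. -/
def S_CL : Prop := ∀ m q : ℕ, 0 < m → 0 < q → ∃ L : ℕ, 0 < L ∧ ∀ B : ℕ, ∃ b : ℕ, B ≤ b ∧ 0 < b ∧
  ∃ J : Set ℤ, Per b J ∧ Sml b m J ∧ Cov b q L J

/-- `OP`: `Hs D J` is open. -/
def S_OP : Prop := ∀ (D : ℕ) (J : Set ℤ), 0 < D → IsOpen (Hs D J)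

/-- `HN`: the upper limit of the sets `Hs (D (k+1)) (J k)` is a null set. -/
def S_HN : Prop := ∀ (D b m : ℕ → ℕ) (J : ℕ → Set ℤ), (∀ k, 0 < D k) → (∀ k, 0 < b k) →
  (∀ k, 0 < m k) → (∀ k, D (k + 1) = D k * b k) → (∀ k, Per (b k) (J k)) →
  (∀ k, Sml (b k) (m k) (J k)) → Summable (fun k => (1 : ℝ) / (m k : ℝ)) →
  volume {z : ℝ | ∃ᶠ k in atTop, z ∈ Hs (D (k + 1)) (J k)} = 0

/-- `BC`: decomposition of `X` with the help of the theorem of Baire. -/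
def S_BC : Prop := ∀ (H : ℕ → Set ℝ), (∀ k, IsOpen (H k)) → ∀ X : Set ℝ,
  volume (X + {z : ℝ | ∃ᶠ k in atTop, z ∈ H k}) = 0 →
  ∃ P : ℕ → Set ℝ, (∀ n, P n ⊆ Ioo 0 1 ∧ 0 < volume (P n)) ∧
    ∀ x ∈ X, ∃ n m : ℕ, ∀ k ≥ m, ∀ z ∈ P n, z - x ∉ H k

/-- `CV`: many translates of `Hs` cover almost everything. -/
def S_CV : Prop := ∀ (D b q L : ℕ) (J : Set ℤ), 0 < D → 0 < b → 0 < q → Per b J → Cov b q L J →
  ∀ F : Finset ℝ, (∀ x ∈ F, ∀ y ∈ F, x ≠ y →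
      ¬ (b : ℤ) ∣ ⌊x * ((D * b : ℕ) : ℝ)⌋ - ⌊y * ((D * b : ℕ) : ℝ)⌋) → 2 * L ≤ F.card →
    volume {z : ℝ | z ∈ Ioo 0 1 ∧ ∀ x ∈ F, z - x ∉ Hs (D * b) J} ≤ ENNReal.ofReal (3 / q)

/-- `N1`: null-additive sets are caught by small sets. -/
def S_N1 : Prop := ∃ K : ℕ → ℕ, ∀ G : ℕ → ℕ → ℕ, ∃ D : ℕ → ℕ, (∀ k, 0 < D k) ∧
  (∀ k, D k ∣ D (k + 1)) ∧ (∀ k, G k (D k) ≤ D (k + 1)) ∧
  ∀ X : Set ℝ, NullAdd X → ∃ S : ℕ → Finset ℝ, (∀ k, (S k).card ≤ K k) ∧ Slalom D S X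

/-- `CB`: a null set of the plane is covered infinitely often by squares of finite total area. -/
def S_CB : Prop := ∀ N : Set (ℝ × ℝ), volume N = 0 → ∃ (c : ℕ → ℝ × ℝ) (r : ℕ → ℝ),
  (∀ i, 0 < r i) ∧ Summable (fun i => r i ^ 2) ∧ ∀ z ∈ N, ∃ᶠ i in atTop, dist z (c i) ≤ r i

/-- `N2`: the converse direction in the plane. -/
def S_N2 : Prop := ∀ (K : ℕ → ℕ) (c : ℕ → ℝ × ℝ) (r : ℕ → ℝ), (∀ i, 0 < r i) →
  Summable (fun i => r i ^ 2) → ∃ G : ℕ → ℕ → ℕ, ∀ D : ℕ → ℕ, (∀ k, 0 < D k) →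
  (∀ k, D k ∣ D (k + 1)) → (∀ k, G k (D k) ≤ D (k + 1)) →
  ∀ (X Y : Set ℝ) (S S' : ℕ → Finset ℝ), (∀ k, (S k).card ≤ K k) → (∀ k, (S' k).card ≤ K k) →
    Slalom D S X → Slalom D S' Y →
    volume ((X ×ˢ Y) + {z : ℝ × ℝ | ∃ᶠ i in atTop, dist z (c i) ≤ r i}) = 0

/-- The final assembly. -/
theorem fin (h1 : S_N1) (h2 : S_CB) (h3 : S_N2) :
    ∀ X Y : Set ℝ, NullAdd X → NullAdd Y → NullAdd2 (X ×ˢ Y) := by
  intro X Y hX hY N hN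
  obtain ⟨K, hK⟩ := h1
  obtain ⟨c, r, hr, hs, hc⟩ := h2 N hN
  obtain ⟨G, hG⟩ := h3 K c r hr hs
  obtain ⟨D, hD0, hD1, hD2, hD⟩ := hK G
  obtain ⟨S, hS, hSX⟩ := hD X hX
  obtain ⟨S', hS', hSY⟩ := hD Y hY
  have := hG D hD0 hD1 hD2 X Y S S' hS hS' hSX hSY
  refine measure_mono_null ?_ this
  exact Set.add_subset_add_left hc

end Pool.Agent.Y476.NA
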